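import Mathlib

/-!
CR-2: finitely many vectors of `ℝ^(d+1)` can be moved slightly into general position.
-/

set_option autoImplicit false

open Set Topology

namespace Pool.Agent.Helper39.CR

/-- A point close to `p` outside finitely many proper subspaces. -/
theorem exists_avoid (d : ℕ) {ι : Type} (s : Finset ι)
    (W : ι → Submodule ℝ (Fin (d + 1) → ℝ)) (hW : ∀ i ∈ s, W i ≠ ⊤)
    (p : Fin (d + 1) → ℝ) (ε : ℝ) (hε : 0 < ε) :
    ∃ w ∈ Metric.closedBall p ε, ∀ i ∈ s, w ∉ W i := by
  by_contra hcon
  push Not at hcon
  have hsub : Metric.closedBall p ε ⊆ ⋃ i ∈ s, (W i : Set (Fin (d + 1) → ℝ)) := by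
    intro w hw
    obtain ⟨i, hi, hwi⟩ := hcon w hw
    simp only [Set.mem_iUnion]
    exact ⟨i, hi, hwi⟩
  have hzero : MeasureTheory.volume (⋃ i ∈ s, (W i : Set (Fin (d + 1) → ℝ))) = 0 := by
    refine (MeasureTheory.measure_biUnion_null_iff s.countable_toSet).2 fun i hi => ?_
    exact MeasureTheory.Measure.addHaar_submodule _ _ (hW i hi)
  have hpos := Metric.measure_closedBall_pos
    (MeasureTheory.volume : MeasureTheory.Measure (Fin (d + 1) → ℝ)) p hε
  have := MeasureTheory.measure_mono_null hsub hzero
  exact hpos.ne' this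

theorem general_position (d m : ℕ) (u : Fin m → Fin (d + 1) → ℝ) (ε : ℝ) (hε : 0 < ε) :
    ∃ v : Fin m → Fin (d + 1) → ℝ, (∀ k i, |v k i - u k i| ≤ ε) ∧
      ∀ T : Finset (Fin m), T.card ≤ d + 1 → ∀ c : Fin m → ℝ,
        (∑ k ∈ T, c k • v k) = 0 → ∀ k ∈ T, c k = 0 := by
  classical
  suffices H : ∀ s : Finset (Fin m), ∃ v : Fin m → Fin (d + 1) → ℝ,
      (∀ k i, |v k i - u k i| ≤ ε) ∧ ∀ T ⊆ s, T.card ≤ d + 1 → ∀ c : Fin m → ℝ,
        (∑ k ∈ T, c k • v k) = 0 → ∀ k ∈ T, c k = 0 by
    obtain ⟨v, h1, h2⟩ := H Finset.univ
    exact ⟨v, h1, fun T hT => h2 T (Finset.subset_univ T) hT⟩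
  intro s
  induction s using Finset.induction_on with
  | empty =>
    refine ⟨u, fun k i => by simp [hε.le], fun T hT _ c _ k hk => ?_⟩
    rw [Finset.subset_empty.1 hT] at hk
    simp at hk
  | insert a s ha ih =>
    obtain ⟨v, h1, h2⟩ := ih
    obtain ⟨w, hw1, hw2⟩ := exists_avoid d (s.powerset.filter fun T => T.card ≤ d)
      (fun T => Submodule.span ℝ ((T.image v : Finset (Fin (d + 1) → ℝ)) : Set _))
      (fun T hT htop => by
        rw [Finset.mem_filter] at hT
        have h3 := finrank_span_finset_le_card (R := ℝ) (T.image v)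
        rw [Set.finrank, htop, finrank_top, Module.finrank_fin_fun] at h3
        have h4 : (T.image v).card ≤ T.card := Finset.card_image_le
        omega) (u a) ε hε
    refine ⟨Function.update v a w, ?_, ?_⟩
    · intro k i
      by_cases hk : k = a
      · subst hk
        rw [Function.update_self]
        have h5 : dist (w i) (u k i) ≤ dist w (u k) := dist_le_pi_dist w (u k) i
        rw [Real.dist_eq] at h5
        exact h5.trans (Metric.mem_closedBall.1 hw1)
      · rw [Function.update_of_ne hk]
        exact h1 k i
    · intro T hT hcard c hsum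
      have hother : ∀ T' : Finset (Fin m), a ∉ T' →
          ∑ k ∈ T', c k • Function.update v a w k = ∑ k ∈ T', c k • v k := by
        intro T' haT'
        refine Finset.sum_congr rfl fun k hk => ?_
        have hka : k ≠ a := fun h => haT' (by rw [← h]; exact hk)
        rw [Function.update_of_ne hka]
      by_cases haT : a ∈ T
      · have hsub : T.erase a ⊆ s := by
          intro k hk
          rw [Finset.mem_erase] at hk
          exact Finset.mem_of_mem_insert_of_ne (hT hk.2) hk.1
        have hce : (T.erase a).card ≤ d := by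
          rw [Finset.card_erase_of_mem haT]
          omega
        rw [← Finset.add_sum_erase T _ haT, hother _ (Finset.notMem_erase a T),
          Function.update_self] at hsum
        have hca : c a = 0 := by
          by_contra hne
          refine hw2 (T.erase a) (Finset.mem_filter.2 ⟨Finset.mem_powerset.2 hsub, hce⟩) ?_
          have h6 : w = (c a)⁻¹ • (-∑ k ∈ T.erase a, c k • v k) := by
            rw [← eq_neg_of_add_eq_zero_left hsum, smul_smul, inv_mul_cancel₀ hne, one_smul]
          rw [h6]
          refine Submodule.smul_mem _ _ (Submodule.neg_mem _ (Submodule.sum_mem _ fun k hk => ?_))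
          refine Submodule.smul_mem _ _ (Submodule.subset_span ?_)
          rw [Finset.coe_image]
          exact ⟨k, hk, rfl⟩
        rw [hca, zero_smul, zero_add] at hsum
        have h7 := h2 (T.erase a) hsub (by omega) c hsum
        intro k hk
        by_cases hka : k = a
        · rw [hka, hca]
        · exact h7 k (Finset.mem_erase.2 ⟨hka, hk⟩)
      · have hsub : T ⊆ s := by
          intro k hk
          exact Finset.mem_of_mem_insert_of_ne (hT hk) (fun h => haT (by rw [← h]; exact hk))
        rw [hother T haT] at hsum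
        exact h2 T hsub hcard c hsum

end Pool.Agent.Helper39.CR
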